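import Pool.Agent.MP_2b113a_an.C3.Iface

/-!
Three hyperbolic elements of the symmetric square representation are diagonal in frames in
general position.
-/

namespace Pool.Agent.MP_2b113a_an.H21

open Pool.Agent.MP_2b113a_an.C3 Pool.Agent.MP_2b113a_an.H33

/-- The symmetric square of a rotation, in orthonormal coordinates (`k ^ 2 = 2`). -/
def sy (k c s : ℝ) (hk : k ^ 2 = 2) (h : c ^ 2 + s ^ 2 = 1) : T3 ≃ₗ[ℝ] T3 where
  toFun q := (c ^ 2 * q.1 - k * c * s * q.2.1 + s ^ 2 * q.2.2,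
    k * c * s * q.1 + (c ^ 2 - s ^ 2) * q.2.1 - k * c * s * q.2.2,
    s ^ 2 * q.1 + k * c * s * q.2.1 + c ^ 2 * q.2.2)
  invFun q := (c ^ 2 * q.1 + k * c * s * q.2.1 + s ^ 2 * q.2.2,
    -(k * c * s * q.1) + (c ^ 2 - s ^ 2) * q.2.1 + k * c * s * q.2.2,
    s ^ 2 * q.1 - k * c * s * q.2.1 + c ^ 2 * q.2.2)
  map_add' p q := by
    refine Prod.ext ?_ (Prod.ext ?_ ?_) <;> simp only [Prod.fst_add, Prod.snd_add] <;> ring
  map_smul' a q := by
    refine Prod.ext ?_ (Prod.ext ?_ ?_) <;>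
      simp only [Prod.smul_fst, Prod.smul_snd, smul_eq_mul, RingHom.id_apply] <;> ring
  left_inv q := by
    refine Prod.ext ?_ (Prod.ext ?_ ?_) <;> simp only <;> grind
  right_inv q := by
    refine Prod.ext ?_ (Prod.ext ?_ ?_) <;> simp only <;> grind

theorem sy_apply (k c s : ℝ) (hk : k ^ 2 = 2) (h : c ^ 2 + s ^ 2 = 1) (q : T3) :
    sy k c s hk h q = (c ^ 2 * q.1 - k * c * s * q.2.1 + s ^ 2 * q.2.2,
      k * c * s * q.1 + (c ^ 2 - s ^ 2) * q.2.1 - k * c * s * q.2.2,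
      s ^ 2 * q.1 + k * c * s * q.2.1 + c ^ 2 * q.2.2) := rfl

theorem sy_symm_apply (k c s : ℝ) (hk : k ^ 2 = 2) (h : c ^ 2 + s ^ 2 = 1) (q : T3) :
    (sy k c s hk h).symm q = (c ^ 2 * q.1 + k * c * s * q.2.1 + s ^ 2 * q.2.2,
      -(k * c * s * q.1) + (c ^ 2 - s ^ 2) * q.2.1 + k * c * s * q.2.2,
      s ^ 2 * q.1 - k * c * s * q.2.1 + c ^ 2 * q.2.2) := rfl

theorem orth_sy (k c s : ℝ) (hk : k ^ 2 = 2) (h : c ^ 2 + s ^ 2 = 1) : Orth (sy k c s hk h) := by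
  intro q
  simp only [nsq, sy_apply]
  grind

/-- Scaling of the middle coordinate. -/
noncomputable def sc (k : ℝ) (hk : k ^ 2 = 2) : T3 ≃ₗ[ℝ] T3 where
  toFun q := (q.1, k / 2 * q.2.1, q.2.2)
  invFun q := (q.1, k * q.2.1, q.2.2)
  map_add' p q := by
    refine Prod.ext ?_ (Prod.ext ?_ ?_) <;> simp only [Prod.fst_add, Prod.snd_add]
    ring
  map_smul' a q := by
    refine Prod.ext ?_ (Prod.ext ?_ ?_) <;>
      simp only [Prod.smul_fst, Prod.smul_snd, smul_eq_mul, RingHom.id_apply]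
    ring
  left_inv q := by
    refine Prod.ext ?_ (Prod.ext ?_ ?_) <;> simp only
    grind
  right_inv q := by
    refine Prod.ext ?_ (Prod.ext ?_ ?_) <;> simp only
    grind

theorem sc_apply (k : ℝ) (hk : k ^ 2 = 2) (q : T3) :
    sc k hk q = (q.1, k / 2 * q.2.1, q.2.2) := rfl

theorem frames : FrameStmt := by
  intro m hm
  have hm' : (1 : ℝ) ≤ m := by exact_mod_cast hm
  obtain ⟨r, hr1, hr⟩ : ∃ r : ℝ, 1 < r ∧ r ^ 2 = m * r + 1 := by
    have h1 : √((m : ℝ) ^ 2 + 4) ^ 2 = m ^ 2 + 4 := Real.sq_sqrt (by positivity)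
    have h2 : 1 < √((m : ℝ) ^ 2 + 4) := Real.lt_sqrt_of_sq_lt (by nlinarith)
    refine ⟨(m + √((m : ℝ) ^ 2 + 4)) / 2, by linarith, ?_⟩
    linear_combination (1 / 4) * h1
  obtain ⟨k, hk0, hk⟩ : ∃ k : ℝ, k ≠ 0 ∧ k ^ 2 = 2 :=
    ⟨√2, by positivity, Real.sq_sqrt (by norm_num)⟩
  obtain ⟨s, hs0, hs⟩ : ∃ s : ℝ, s ≠ 0 ∧ (r * s) ^ 2 + s ^ 2 = 1 := by
    have h1 : √(r ^ 2 + 1) ^ 2 = r ^ 2 + 1 := Real.sq_sqrt (by positivity)
    have h2 : 0 < √(r ^ 2 + 1) := Real.sqrt_pos.2 (by positivity)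
    refine ⟨(√(r ^ 2 + 1))⁻¹, by positivity, ?_⟩
    field_simp
    rw [h1]
  have hs2 : (r * s) ^ 2 + (-s) ^ 2 = 1 := by rw [neg_sq, hs]
  have hs3 : s ^ 2 + (r * s) ^ 2 = 1 := by rw [add_comm, hs]
  have hr0 : r ≠ 0 := by positivity
  have hr2 : r ^ 2 - 1 ≠ 0 := by nlinarith
  have hi : (r ^ 4)⁻¹ = (r - m) ^ 4 := by
    have : r * (r - m) = 1 := by linear_combination hr
    rw [← inv_pow, inv_eq_of_mul_eq_one_right this]
  refine ⟨r ^ 4, (sy k _ _ hk hs).trans (sc k hk), (sy k _ _ hk hs2).trans (sy k _ _ hk hs).symm,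
    (sy k _ _ hk hs3).trans (sy k _ _ hk hs).symm, by nlinarith, ⟨?_, ?_, ?_, ?_, ?_⟩, ?_, ?_, ?_⟩
  · intro q
    rw [LinearEquiv.trans_apply, (orth_sy _ _ _ _ _).symm, orth_sy]
  · intro q
    rw [LinearEquiv.trans_apply, (orth_sy _ _ _ _ _).symm, orth_sy]
  · have : (((sy k _ _ hk hs2).trans (sy k _ _ hk hs).symm) (1, 0, 0)).1 =
        (s ^ 2 * (r ^ 2 - 1)) ^ 2 := by
      simp only [LinearEquiv.trans_apply, sy_apply, sy_symm_apply]
      grind
    rw [this]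
    positivity
  · have : (((sy k _ _ hk hs3).trans (sy k _ _ hk hs).symm) (1, 0, 0)).1 =
        (2 * r * s ^ 2) ^ 2 := by
      simp only [LinearEquiv.trans_apply, sy_apply, sy_symm_apply]
      grind
    rw [this]
    positivity
  · have : (((sy k _ _ hk hs2).trans (sy k _ _ hk hs).symm) (1, 0, 0)).2.1 *
        (((sy k _ _ hk hs3).trans (sy k _ _ hk hs).symm) (1, 0, 0)).2.2 -
        (((sy k _ _ hk hs2).trans (sy k _ _ hk hs).symm) (1, 0, 0)).2.2 *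
        (((sy k _ _ hk hs3).trans (sy k _ _ hk hs).symm) (1, 0, 0)).2.1 =
        -(k * (2 * r * s ^ 2) * (s ^ 2 * (r ^ 2 - 1))) := by
      simp only [LinearEquiv.trans_apply, sy_apply, sy_symm_apply]
      grind
    rw [this, neg_ne_zero]
    positivity
  · intro q
    simp only [LinearEquiv.trans_apply, sy_apply, sc_apply, U3, L3, dg, pow_one, hi,
      zsmul_eq_mul]
    push_cast
    refine Prod.ext ?_ (Prod.ext ?_ ?_) <;> simp only <;> grind
  · intro q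
    simp only [LinearEquiv.trans_apply, LinearEquiv.apply_symm_apply]
    simp only [sy_apply, sc_apply, U3, L3, dg, pow_one, hi, zsmul_eq_mul]
    push_cast
    refine Prod.ext ?_ (Prod.ext ?_ ?_) <;> simp only <;> grind
  · intro q
    simp only [LinearEquiv.trans_apply, LinearEquiv.apply_symm_apply]
    simp only [sy_apply, sc_apply, U3, L3, dg, pow_one, hi, zsmul_eq_mul]
    push_cast
    refine Prod.ext ?_ (Prod.ext ?_ ?_) <;> simp only <;> grind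

end Pool.Agent.MP_2b113a_an.H21
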